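import Mathlib
import Pool.Agent.Q157.WalshGraph

/-!
All exclude multiplicities of the graph of a plateaued APN function on `𝔽₂ⁿ`, `n ≥ 3`, are odd.
-/

namespace Pool.Agent.Results.MP_b298ef_co.OddMultiplicities

open Matrix Q157.Walsh

variable {n : ℕ}

theorem sum_chi_erase {c : V n} (hc : c ≠ 0) :
    ∑ v ∈ Finset.univ.erase (0 : V n), chi (v ⬝ᵥ c) = -1 := by
  have h := sum_chi_dot c
  rw [if_neg hc, ← Finset.add_sum_erase _ _ (Finset.mem_univ (0 : V n)), zero_dotProduct,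
    chi_zero] at h
  linarith

/-- A component with amplitude `2^(n/2)` has no vanishing Walsh coefficient. -/
theorem ne_zero_of_bent {F : V n → V n} {v : V n} {k : ℕ} (hn : n = 2 * k)
    (h : ∀ u : V n, W F u v = 0 ∨ W F u v = 2 ^ k ∨ W F u v = -2 ^ k) (u : V n) :
    W F u v ≠ 0 := by
  intro h0
  have hpars := parseval F v
  have hle : ∀ w ∈ (Finset.univ : Finset (V n)), W F w v ^ 2 ≤ (2 : ℤ) ^ n := by
    intro w _
    have h2 : ((2 : ℤ) ^ k) ^ 2 = 2 ^ n := by rw [← pow_mul, mul_comm, hn]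
    rcases h w with h' | h' | h'
    · rw [h']; positivity
    · rw [h', h2]
    · rw [h', neg_sq, h2]
  have hlt : ∑ w : V n, W F w v ^ 2 < ∑ w : V n, (2 : ℤ) ^ n :=
    Finset.sum_lt_sum hle ⟨u, Finset.mem_univ _, by rw [h0]; positivity⟩
  rw [hpars, Finset.sum_const, Finset.card_univ, card_V, nsmul_eq_mul] at hlt
  push_cast at hlt
  exact lt_irrefl _ hlt

theorem odd_case {F : V n → V n} (hn3 : 3 ≤ n) (hodd : ¬ Even n) (hF : IsAPN F) {j : V n → ℕ}
    (hj : ∀ v, v ≠ 0 → n ≤ 2 * j v)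
    (h : ∀ v, v ≠ 0 → ∀ u, W F u v = 0 ∨ W F u v = 2 ^ j v ∨ W F u v = -2 ^ j v)
    {a b : V n} (hb : F a ≠ b) : Odd (mult (graph F) (a, b)) := by
  have hge : ∀ v ∈ Finset.univ.erase (0 : V n), (2 : ℤ) ^ (n + 1) ≤ (2 ^ j v) ^ 2 := by
    intro v hv
    have hv0 := Finset.ne_of_mem_erase hv
    have h1 := hj v hv0
    have h2 : n + 1 ≤ 2 * j v := by
      rcases h1.lt_or_eq with h2 | h2
      · omega
      · exact absurd ⟨j v, by omega⟩ hodd
    rw [← pow_mul, mul_comm]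
    exact pow_le_pow_right₀ (by norm_num) h2
  have hsum := sum_amplitude_sq hF (l := fun v => 2 ^ j v) h
  have hcard : ((Finset.univ.erase (0 : V n)).card : ℤ) = 2 ^ n - 1 := by
    rw [Finset.card_erase_of_mem (Finset.mem_univ _), Finset.card_univ, card_V]
    have : 1 ≤ 2 ^ n := Nat.one_le_two_pow
    push_cast [this]; ring
  have hconst : ∑ _v ∈ Finset.univ.erase (0 : V n), (2 : ℤ) ^ (n + 1) =
      2 ^ n * (2 * 2 ^ n - 2) := by
    rw [Finset.sum_const, nsmul_eq_mul, hcard, pow_succ]; ring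
  have heq : ∀ v ∈ Finset.univ.erase (0 : V n), ((2 : ℤ) ^ j v) ^ 2 = 2 ^ (n + 1) := by
    intro v hv
    have := (Finset.sum_eq_sum_iff_of_le hge).1 (hconst.trans hsum.symm) v hv
    exact this.symm
  have h6 := six_mult (l := fun v => 2 ^ j v) h hb
  have hc : F a + b ≠ 0 := fun h0 => hb (V_add_eq_zero.1 h0)
  rw [Finset.sum_congr rfl (g := fun v => (2 : ℤ) ^ (n + 1) * chi (v ⬝ᵥ (F a + b)))
    (fun v hv => by rw [heq v hv]), ← Finset.mul_sum, sum_chi_erase hc] at h6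
  obtain ⟨t, rfl⟩ : ∃ t, n = t + 1 := ⟨n - 1, by omega⟩
  have hpos : (2 : ℤ) ^ (t + 1) ≠ 0 := by positivity
  have h7 : (6 * (mult (graph F) (a, b) : ℤ)) = 2 ^ (t + 1) - 2 := by
    apply mul_left_cancel₀ hpos
    rw [h6, pow_succ 2 (t + 1)]; ring
  obtain ⟨s, rfl⟩ : ∃ s, t = s + 1 := ⟨t - 1, by omega⟩
  have h8 : 3 * mult (graph F) (a, b) + 1 = 2 * 2 ^ s := by
    have : (3 * (mult (graph F) (a, b) : ℤ)) + 1 = 2 * 2 ^ s := by
      rw [pow_succ, pow_succ] at h7; linarith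
    exact_mod_cast this
  rw [Nat.odd_iff]
  omega

theorem even_case {F : V n → V n} {k : ℕ} (hk : 2 ≤ k) (hn : n = 2 * k) (hF : IsAPN F)
    {j : V n → ℕ} (hj : ∀ v, v ≠ 0 → n ≤ 2 * j v)
    (h : ∀ v, v ≠ 0 → ∀ u, W F u v = 0 ∨ W F u v = 2 ^ j v ∨ W F u v = -2 ^ j v)
    {a b : V n} (hb : F a ≠ b) : Odd (mult (graph F) (a, b)) := by
  classical
  obtain ⟨c, hcdef⟩ : ∃ c, c = F a + b := ⟨_, rfl⟩
  have hc : c ≠ 0 := fun h0 => hb (V_add_eq_zero.1 (hcdef ▸ h0))
  -- `s v = 4 ^ (j v - k)`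
  have hsq : ∀ v ∈ Finset.univ.erase (0 : V n),
      ((2 : ℤ) ^ j v) ^ 2 = 2 ^ n * 4 ^ (j v - k) := by
    intro v hv
    have h1 := hj v (Finset.ne_of_mem_erase hv)
    have h2 : (4 : ℤ) = 2 ^ 2 := by norm_num
    rw [← pow_mul, h2, ← pow_mul, ← pow_add]
    congr 1
    omega
  have hpos : (2 : ℤ) ^ n ≠ 0 := by positivity
  have hsum : ∑ v ∈ Finset.univ.erase (0 : V n), (4 : ℤ) ^ (j v - k) = 2 * 2 ^ n - 2 := by
    have h1 := sum_amplitude_sq hF (l := fun v => 2 ^ j v) h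
    rw [Finset.sum_congr rfl hsq, ← Finset.mul_sum] at h1
    exact mul_left_cancel₀ hpos h1
  have h6 : 6 * (mult (graph F) (a, b) : ℤ) =
      2 ^ n + ∑ v ∈ Finset.univ.erase (0 : V n), (4 : ℤ) ^ (j v - k) * chi (v ⬝ᵥ c) := by
    have h1 := six_mult (l := fun v => 2 ^ j v) h hb
    rw [Finset.sum_congr rfl (g := fun v => (2 : ℤ) ^ n * ((4 : ℤ) ^ (j v - k) * chi (v ⬝ᵥ c)))
      (fun v hv => by rw [hsq v hv, hcdef]; ring), ← Finset.mul_sum, ← mul_add] at h1
    exact mul_left_cancel₀ hpos h1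
  -- the bent components
  set Bt := (Finset.univ.erase (0 : V n)).filter fun v => j v = k with hBt
  have hcast4 : ∀ v ∈ Finset.univ.erase (0 : V n),
      (((4 : ℤ) ^ (j v - k) : ℤ) : ZMod 4) = if j v = k then 1 else 0 := by
    intro v hv
    have h1 := hj v (Finset.ne_of_mem_erase hv)
    split_ifs with h2
    · rw [h2]; simp
    · obtain ⟨t, ht⟩ : ∃ t, j v - k = t + 1 := ⟨j v - k - 1, by omega⟩
      rw [ht, pow_succ]
      push_cast
      have : (4 : ZMod 4) = 0 := by decide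
      rw [this, mul_zero]
  have hpow4 : (((2 : ℤ) ^ n : ℤ) : ZMod 4) = 0 := by
    obtain ⟨t, ht⟩ : ∃ t, n = 2 + t := ⟨n - 2, by omega⟩
    rw [ht, pow_add]
    push_cast
    have : (4 : ZMod 4) = 0 := by decide
    rw [this, zero_mul]
  have hB : ((Bt.card : ℕ) : ZMod 4) = 2 := by
    have h1 := congrArg (Int.cast : ℤ → ZMod 4) hsum
    rw [Int.cast_sum, Finset.sum_congr rfl hcast4, ← Finset.sum_filter, Finset.sum_const,
      nsmul_eq_mul, mul_one, Int.cast_sub, Int.cast_mul, hpow4] at h1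
    rw [h1]
    decide
  -- the bent components with `v ⬝ᵥ c = 1` are even in number
  set B1 := Bt.filter fun v => v ⬝ᵥ c = 1 with hB1
  have hB1even : ((B1.card : ℕ) : ZMod 2) = 0 := by
    have hW : ∀ v : V n, ∃ w : ℤ, W F 0 v = 2 ^ k * w ∧
        ((w : ℤ) : ZMod 2) = if v ∈ Bt then 1 else 0 := by
      intro v
      by_cases hv0 : v = 0
      · refine ⟨2 ^ k, ?_, ?_⟩
        · rw [hv0, W_zero, if_pos rfl, hn, ← pow_add]
          congr 1
          omega
        · rw [if_neg (by rw [hBt, Finset.mem_filter, Finset.mem_erase]; simp [hv0])]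
          obtain ⟨t, ht⟩ : ∃ t, k = t + 1 := ⟨k - 1, by omega⟩
          rw [ht, pow_succ]
          push_cast
          have : (2 : ZMod 2) = 0 := by decide
          rw [this, mul_zero]
      · have hv : v ∈ Finset.univ.erase (0 : V n) := Finset.mem_erase.2 ⟨hv0, Finset.mem_univ _⟩
        by_cases hjk : j v = k
        · have hbt : v ∈ Bt := by rw [hBt, Finset.mem_filter]; exact ⟨hv, hjk⟩
          have h1 := h v hv0
          rw [hjk] at h1
          have h2 := ne_zero_of_bent hn h1 0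
          rcases h1 0 with h3 | h3 | h3
          · exact absurd h3 h2
          · exact ⟨1, by rw [h3, mul_one], by rw [if_pos hbt]; decide⟩
          · exact ⟨-1, by rw [h3]; ring, by rw [if_pos hbt]; decide⟩
        · have hbt : v ∉ Bt := by
            rw [hBt, Finset.mem_filter]; exact fun h => hjk h.2
          have h1 := hj v hv0
          obtain ⟨t, ht⟩ : ∃ t, j v = k + (t + 1) := ⟨j v - k - 1, by omega⟩
          have h2 : (2 : ZMod 2) = 0 := by decide
          rcases h v hv0 0 with h3 | h3 | h3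
          · exact ⟨0, by rw [h3]; ring, by rw [if_neg hbt]; simp⟩
          · refine ⟨2 ^ (t + 1), by rw [h3, ht, pow_add], ?_⟩
            rw [if_neg hbt, pow_succ]; push_cast; rw [h2, mul_zero]
          · refine ⟨-2 ^ (t + 1), by rw [h3, ht, pow_add 2 k]; ring, ?_⟩
            rw [if_neg hbt, pow_succ]; push_cast; rw [h2, mul_zero, neg_zero]
    choose w hw1 hw2 using hW
    have e1 := sum_W_chi_right F c
    have e0 := sum_W_chi_right F 0
    simp only [dotProduct_zero, chi_zero, mul_one] at e0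
    obtain ⟨N0, hN0⟩ : ∃ N0 : ℤ, N0 = ((Finset.univ.filter fun x => F x = 0).card : ℤ) := ⟨_, rfl⟩
    obtain ⟨Nc, hNc⟩ : ∃ Nc : ℤ, Nc = ((Finset.univ.filter fun x => F x = c).card : ℤ) := ⟨_, rfl⟩
    rw [← hN0] at e0
    rw [← hNc] at e1
    have e2 : ∑ v : V n, W F 0 v * (1 - chi (v ⬝ᵥ c)) = 2 ^ n * (N0 - Nc) := by
      simp_rw [mul_sub, mul_one]
      rw [Finset.sum_sub_distrib, e0, e1]
    have e3 : ∀ v : V n, W F 0 v * (1 - chi (v ⬝ᵥ c)) =
        2 * 2 ^ k * (if v ⬝ᵥ c = 1 then w v else 0) := by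
      intro v
      rw [hw1]
      generalize v ⬝ᵥ c = t
      have : t = 0 ∨ t = 1 := by revert t; decide
      rcases this with rfl | rfl
      · simp [chi_zero]
      · simp [chi_one]; ring
    simp_rw [e3] at e2
    rw [← Finset.mul_sum, ← Finset.sum_filter] at e2
    have e4 : ∑ v ∈ Finset.univ.filter (fun v : V n => v ⬝ᵥ c = 1), w v =
        2 ^ (k - 1) * (N0 - Nc) := by
      have h2k : (2 : ℤ) * 2 ^ k ≠ 0 := by positivity
      apply mul_left_cancel₀ h2k
      rw [e2, ← mul_assoc, mul_assoc 2 (2 ^ k), ← pow_add, ← pow_succ']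
      congr 2
      omega
    have e5 := congrArg (Int.cast : ℤ → ZMod 2) e4
    rw [Int.cast_sum, Finset.sum_congr rfl (fun v _ => hw2 v), ← Finset.sum_filter,
      Finset.sum_const, nsmul_eq_mul, mul_one] at e5
    have e6 : Finset.filter (fun v => v ∈ Bt)
        (Finset.univ.filter (fun v : V n => v ⬝ᵥ c = 1)) = B1 := by
      ext v
      simp only [hB1, Finset.mem_filter, Finset.mem_univ, true_and]
      tauto
    rw [e6] at e5
    rw [e5]
    obtain ⟨t, ht⟩ : ∃ t, k - 1 = t + 1 := ⟨k - 2, by omega⟩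
    rw [ht, pow_succ]
    push_cast
    have : (2 : ZMod 2) = 0 := by decide
    rw [this, mul_zero, zero_mul]
  have hB1' : 2 ∣ B1.card := (ZMod.natCast_eq_zero_iff _ _).1 hB1even
  -- conclusion modulo `4`
  have h7 := congrArg (Int.cast : ℤ → ZMod 4) h6
  rw [Int.cast_add, hpow4, zero_add, Int.cast_sum] at h7
  have h8 : ∀ v ∈ Finset.univ.erase (0 : V n),
      (((4 : ℤ) ^ (j v - k) * chi (v ⬝ᵥ c) : ℤ) : ZMod 4) =
        if j v = k then (1 - if v ⬝ᵥ c = 1 then (2 : ZMod 4) else 0) else 0 := by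
    intro v hv
    rw [Int.cast_mul, hcast4 v hv]
    split_ifs with h1 h2
    · rw [h2, chi_one]; decide
    · have : v ⬝ᵥ c = 0 := by
        generalize v ⬝ᵥ c = t at h2
        revert t; decide
      rw [this, chi_zero]; decide
    · simp
  rw [Finset.sum_congr rfl h8, ← Finset.sum_filter, ← hBt, Finset.sum_sub_distrib,
    Finset.sum_const, nsmul_eq_mul, mul_one, hB, ← Finset.sum_filter, ← hB1, Finset.sum_const,
    nsmul_eq_mul] at h7
  obtain ⟨r, hr⟩ := hB1'
  rw [hr] at h7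
  have h9 : (((6 * mult (graph F) (a, b) : ℕ)) : ZMod 4) = ((2 : ℕ) : ZMod 4) := by
    have h10 : (((6 * (mult (graph F) (a, b) : ℤ) : ℤ)) : ZMod 4) =
        (((6 * mult (graph F) (a, b) : ℕ)) : ZMod 4) := by push_cast; rfl
    rw [← h10, h7]
    push_cast
    have h11 : (2 : ZMod 4) * (r : ZMod 4) * 2 = 0 := by
      have : (2 : ZMod 4) * 2 = 0 := by decide
      rw [mul_comm (2 : ZMod 4) (r : ZMod 4), mul_assoc, this, mul_zero]
    rw [h11, sub_zero]
  rw [ZMod.natCast_eq_natCast_iff'] at h9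
  rw [Nat.odd_iff]
  omega

/-- For every `n ≥ 3` and every plateaued APN function `F` on `𝔽₂ⁿ`, the exclude multiplicity
of every point outside the graph of `F` is odd. -/
theorem result : ∀ n : ℕ, 3 ≤ n → ∀ F : V n → V n, IsAPN F → IsPlateaued F →
    ∀ a b : V n, b ≠ F a → Odd (mult (graph F) (a, b)) := by
  intro n hn F hF hP a b hb
  have hex : ∀ v : V n, ∃ j : ℕ, v ≠ 0 → n ≤ 2 * j ∧
      ∀ u, W F u v = 0 ∨ W F u v = 2 ^ j ∨ W F u v = -2 ^ j := by
    intro v
    by_cases hv : v = 0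
    · exact ⟨0, fun h => absurd hv h⟩
    · obtain ⟨l, hl, hlv⟩ := hP v hv
      obtain ⟨j, rfl, hj⟩ := amplitude hl hlv
      exact ⟨j, fun _ => ⟨hj, hlv⟩⟩
  choose j hj using hex
  by_cases hev : Even n
  · obtain ⟨k, hk⟩ := hev
    exact even_case (k := k) (by omega) (by omega) hF (fun v hv => (hj v hv).1)
      (fun v hv => (hj v hv).2) hb.symm
  · exact odd_case hn hev hF (fun v hv => (hj v hv).1) (fun v hv => (hj v hv).2) hb.symm

end Pool.Agent.Results.MP_b298ef_co.OddMultiplicities
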